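import Pool.Agent.N282.WM.Stm

/-!
# Project WM: one more prime (helper282)
-/

set_option autoImplicit false

open MeasureTheory Filter Topology Classical

namespace Pool.Agent.N282.WM

open Pool.Agent.N282.GC

theorem Alg_prim_prime (y : ℕ) (h : (y + 1).Prime) : primorial (y + 1) = (y + 1) * primorial y := by
  unfold primorial
  rw [Finset.range_add_one (n := y + 1), Finset.filter_insert, if_pos h, Finset.prod_insert]
  simp

theorem Alg_prim_not (y : ℕ) (h : ¬ (y + 1).Prime) : primorial (y + 1) = primorial y := by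
  unfold primorial
  rw [Finset.range_add_one (n := y + 1), Finset.filter_insert, if_neg h]

theorem Alg_not_dvd (y : ℕ) (h : (y + 1).Prime) : ¬ (y + 1) ∣ primorial y := by
  intro hd
  have := (Prime.dvd_finsetProd_iff h.prime _).1 hd
  obtain ⟨p, hp, hp2⟩ := this
  rw [Finset.mem_filter, Finset.mem_range] at hp
  have := (Nat.prime_dvd_prime_iff_eq h hp.2).1 hp2
  omega

theorem Alg_divs (y : ℕ) (h : (y + 1).Prime) :
    (primorial (y + 1)).divisors = (primorial y).divisors ∪ (primorial y).divisors.image (fun n => (y + 1) * n) := by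
  rw [Alg_prim_prime y h]
  ext n
  simp only [Nat.mem_divisors, Finset.mem_union, Finset.mem_image]
  have h0 := primorial_ne_zero y
  constructor
  · rintro ⟨h1, h2⟩
    by_cases hp : (y + 1) ∣ n
    · obtain ⟨k, rfl⟩ := hp
      right
      exact ⟨k, ⟨Nat.dvd_of_mul_dvd_mul_left h.pos h1, h0⟩, rfl⟩
    · left
      exact ⟨(Nat.Coprime.dvd_of_dvd_mul_left ((Nat.Prime.coprime_iff_not_dvd h).2 hp).symm h1), h0⟩
  · rintro (⟨h1, h2⟩ | ⟨k, ⟨h1, h2⟩, rfl⟩)
    · exact ⟨Dvd.dvd.mul_left h1 _, mul_ne_zero h.ne_zero h0⟩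
    · exact ⟨Nat.mul_dvd_mul_left _ h1, mul_ne_zero h.ne_zero h0⟩

theorem Alg_disj (y : ℕ) (h : (y + 1).Prime) :
    Disjoint (primorial y).divisors ((primorial y).divisors.image (fun n => (y + 1) * n)) := by
  rw [Finset.disjoint_left]
  intro n hn hn2
  rw [Finset.mem_image] at hn2
  obtain ⟨k, hk, rfl⟩ := hn2
  exact Alg_not_dvd y h (dvd_trans (Dvd.intro _ rfl) (Nat.dvd_of_mem_divisors hn))

theorem Alg_fs (s : ℕ → ℝ) (p n : ℕ) (hp : p.Prime) (h : ¬ p ∣ n) (hn : n ≠ 0) :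
    fs s (p * n) = - (s p * fs s n) := by
  unfold fs
  have hc : Nat.Coprime p n := (Nat.Prime.coprime_iff_not_dvd hp).2 h
  rw [ArithmeticFunction.isMultiplicative_moebius.map_mul_of_coprime hc,
    ArithmeticFunction.moebius_apply_prime hp, Nat.Coprime.primeFactors_mul hc,
    Finset.prod_union (Nat.Coprime.disjoint_primeFactors hc), Nat.Prime.primeFactors hp]
  simp
  ring

theorem Alg_sum (y : ℕ) (h : (y + 1).Prime) (G : ℕ → ℝ) :
    ∑ n ∈ (primorial (y + 1)).divisors, G n =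
      ∑ n ∈ (primorial y).divisors, (G n + G ((y + 1) * n)) := by
  rw [Alg_divs y h, Finset.sum_union (Alg_disj y h), Finset.sum_image, Finset.sum_add_distrib]
  intro a _ b _ hab
  exact Nat.eq_of_mul_eq_mul_left h.pos hab

theorem t_ALG : S_ALG := by
  intro s y hs
  split_ifs with h
  swap
  · unfold AA
    rw [Alg_prim_not y h]
  have hA : AA (fs s) (y + 1) = ∑ m ∈ (primorial y).divisors, ∑ n ∈ (primorial y).divisors,
      ((1 + 1 / ((y + 1 : ℕ) : ℝ)) * (fs s m * fs s n / max (m : ℝ) n)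
        - s (y + 1) * (fs s m * fs s n / max (m : ℝ) ((y + 1 : ℕ) * n))
        - s (y + 1) * (fs s n * fs s m / max (n : ℝ) ((y + 1 : ℕ) * m))) := by
    unfold AA
    rw [Alg_sum y h]
    refine Finset.sum_congr rfl fun m hm => ?_
    rw [Alg_sum y h, Alg_sum y h, ← Finset.sum_add_distrib]
    refine Finset.sum_congr rfl fun n hn => ?_
    have hm0 : m ≠ 0 := (Nat.pos_of_mem_divisors hm).ne'
    have hn0 : n ≠ 0 := (Nat.pos_of_mem_divisors hn).ne'
    have hmd : ¬ (y + 1) ∣ m := fun hd => Alg_not_dvd y h (dvd_trans hd (Nat.dvd_of_mem_divisors hm))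
    have hnd : ¬ (y + 1) ∣ n := fun hd => Alg_not_dvd y h (dvd_trans hd (Nat.dvd_of_mem_divisors hn))
    rw [Alg_fs s _ m h hmd hm0, Alg_fs s _ n h hnd hn0]
    have hp : (0 : ℝ) < ((y + 1 : ℕ) : ℝ) := by exact_mod_cast h.pos
    have e1 : max ((((y + 1) * m : ℕ)) : ℝ) (((y + 1) * n : ℕ) : ℝ) = ((y + 1 : ℕ) : ℝ) * max (m : ℝ) n := by
      rw [mul_max_of_nonneg _ _ hp.le]
      push_cast
      rfl
    have e2 : max ((((y + 1) * m : ℕ)) : ℝ) (n : ℝ) = max (n : ℝ) ((y + 1 : ℕ) * m) := by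
      rw [max_comm]; push_cast; rfl
    have e3 : max (m : ℝ) (((y + 1) * n : ℕ) : ℝ) = max (m : ℝ) ((y + 1 : ℕ) * n) := by
      push_cast; rfl
    rw [e1, e2, e3]
    have hmx : (0 : ℝ) < max (m : ℝ) n := lt_max_of_lt_left (by exact_mod_cast Nat.pos_of_ne_zero hm0)
    have e4 : -(s (y + 1) * fs s m) * -(s (y + 1) * fs s n) / (((y + 1 : ℕ) : ℝ) * max (m : ℝ) n) =
        1 / ((y + 1 : ℕ) : ℝ) * (fs s m * fs s n / max (m : ℝ) n) := by
      have : -(s (y + 1) * fs s m) * -(s (y + 1) * fs s n) = s (y + 1) ^ 2 * (fs s m * fs s n) := by ring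
      rw [this, hs, one_mul]
      field_simp
    rw [e4]
    ring
  rw [hA]
  simp only [Finset.sum_sub_distrib, ← Finset.mul_sum]
  have e5 : ∑ m ∈ (primorial y).divisors, ∑ n ∈ (primorial y).divisors,
      fs s n * fs s m / max (n : ℝ) ((y + 1 : ℕ) * m) = BB (fs s) y (y + 1) := by
    rw [Finset.sum_comm]
    rfl
  rw [e5]
  have e6 : ∑ m ∈ (primorial y).divisors, ∑ n ∈ (primorial y).divisors,
      fs s m * fs s n / max (m : ℝ) ((y + 1 : ℕ) * n) = BB (fs s) y (y + 1) := rfl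
  rw [e6]
  have e7 : ∑ m ∈ (primorial y).divisors, ∑ n ∈ (primorial y).divisors,
      fs s m * fs s n / max (m : ℝ) n = AA (fs s) y := rfl
  rw [e7]
  ring

end Pool.Agent.N282.WM
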