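import Pool.Agent.N282.WM.Stm

/-!
# Project WM: the integral (helper282)
-/

set_option autoImplicit false

open MeasureTheory Filter Topology Classical

namespace Pool.Agent.N282.WM

open Pool.Agent.N282.GC

/-- a cut inverse square -/
noncomputable def Int_c (a u : ℝ) : ℝ := if a ≤ u then 1 / u ^ 2 else 0

theorem Int_ii (a X : ℝ) (hX : 1 ≤ X) : IntervalIntegrable (Int_c a) volume 1 X := by
  rw [intervalIntegrable_iff_integrableOn_Ioc_of_le hX]
  have h : Int_c a = Set.indicator (Set.Ici a) (fun u : ℝ => 1 / u ^ 2) := by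
    funext u
    unfold Int_c Set.indicator
    simp [Set.mem_Ici]
  rw [h]
  refine Integrable.indicator ?_ measurableSet_Ici
  have : ContinuousOn (fun u : ℝ => 1 / u ^ 2) (Set.Icc 1 X) := by
    refine ContinuousOn.div continuousOn_const (continuousOn_pow 2) ?_
    intro u hu
    have : (1 : ℝ) ≤ u := hu.1
    positivity
  exact (this.integrableOn_compact isCompact_Icc).mono_set Set.Ioc_subset_Icc_self

theorem Int_val (a X : ℝ) (h1 : 1 ≤ a) (h2 : a ≤ X) : ∫ u in (1 : ℝ)..X, Int_c a u = 1 / a - 1 / X := by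
  have i1 : IntervalIntegrable (Int_c a) volume 1 a := Int_ii a a h1
  have i2 : IntervalIntegrable (Int_c a) volume a X :=
    (Int_ii a X (h1.trans h2)).mono_set (by
      rw [Set.uIcc_of_le h2, Set.uIcc_of_le (h1.trans h2)]
      exact Set.Icc_subset_Icc_left h1)
  rw [← intervalIntegral.integral_add_adjacent_intervals i1 i2]
  have e1 : ∫ u in (1 : ℝ)..a, Int_c a u = 0 := by
    have : ∫ u in (1 : ℝ)..a, Int_c a u = ∫ u in (1 : ℝ)..a, (0 : ℝ) := by
      refine intervalIntegral.integral_congr_ae ?_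
      have hne : ∀ᵐ u : ℝ, u ≠ a := by
        rw [ae_iff]
        simp
      filter_upwards [hne] with u hu hu2
      rw [Set.uIoc_of_le h1] at hu2
      unfold Int_c
      rw [if_neg]
      intro h
      exact hu (le_antisymm hu2.2 h)
    rw [this]
    simp
  have e2 : ∫ u in a..X, Int_c a u = ∫ u in a..X, 1 / u ^ 2 := by
    refine intervalIntegral.integral_congr ?_
    intro u hu
    rw [Set.uIcc_of_le h2] at hu
    show Int_c a u = 1 / u ^ 2
    unfold Int_c
    rw [if_pos hu.1]
  have e3 : ∫ u in a..X, 1 / u ^ 2 = (-(1 / X)) - (-(1 / a)) := by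
    refine intervalIntegral.integral_eq_sub_of_hasDerivAt (f := fun u : ℝ => -(1 / u)) ?_ ?_
    · intro u hu
      rw [Set.uIcc_of_le h2] at hu
      have hu0 : u ≠ 0 := by
        have : (1 : ℝ) ≤ u := h1.trans hu.1
        positivity
      have := (hasDerivAt_inv hu0).neg
      refine (this.congr_deriv ?_).congr_of_eventuallyEq ?_
      · field_simp
      · refine Eventually.of_forall fun v => ?_
        simp
    · have : ContinuousOn (fun u : ℝ => 1 / u ^ 2) (Set.uIcc a X) := by
        refine ContinuousOn.div continuousOn_const (continuousOn_pow 2) ?_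
        intro u hu
        rw [Set.uIcc_of_le h2] at hu
        have : (1 : ℝ) ≤ u := h1.trans hu.1
        positivity
      exact this.intervalIntegrable
  rw [e1, e2, e3]
  ring

/-- the cut sum over the divisors -/
noncomputable def Int_g (F : ℕ → ℝ) (D : Finset ℕ) (u : ℝ) : ℝ := ∑ n ∈ D, if (n : ℝ) ≤ u then F n else 0

theorem Int_sq (F : ℕ → ℝ) (D : Finset ℕ) (u : ℝ) :
    (Int_g F D u / u) ^ 2 = ∑ m ∈ D, ∑ n ∈ D, F m * F n * Int_c (max (m : ℝ) n) u := by
  unfold Int_g
  rw [div_pow, pow_two (∑ n ∈ D, if (n : ℝ) ≤ u then F n else 0), Finset.sum_mul_sum, Finset.sum_div]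
  refine Finset.sum_congr rfl fun m _ => ?_
  rw [Finset.sum_div]
  refine Finset.sum_congr rfl fun n _ => ?_
  unfold Int_c
  by_cases h1 : (m : ℝ) ≤ u <;> by_cases h2 : (n : ℝ) ≤ u
  · rw [if_pos h1, if_pos h2, if_pos (max_le h1 h2)]; ring
  · rw [if_pos h1, if_neg h2, if_neg (fun h => h2 ((le_max_right _ _).trans h))]; ring
  · rw [if_neg h1, if_neg (fun h => h1 ((le_max_left _ _).trans h))]; ring
  · rw [if_neg h1, if_neg (fun h => h1 ((le_max_left _ _).trans h))]; ring

theorem Int_int (F : ℕ → ℝ) (D : Finset ℕ) (X : ℝ) (hX : 1 ≤ X) (hD : ∀ n ∈ D, 1 ≤ n ∧ (n : ℝ) ≤ X) :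
    IntervalIntegrable (fun u => (Int_g F D u / u) ^ 2) volume 1 X ∧
    ∫ u in (1 : ℝ)..X, (Int_g F D u / u) ^ 2 =
      (∑ m ∈ D, ∑ n ∈ D, F m * F n / max (m : ℝ) n) - (∑ n ∈ D, F n) ^ 2 / X := by
  have hfun : (fun u => (Int_g F D u / u) ^ 2) =
      fun u => ∑ m ∈ D, ∑ n ∈ D, F m * F n * Int_c (max (m : ℝ) n) u := funext (Int_sq F D)
  have hi : ∀ m n : ℕ, IntervalIntegrable (fun u => F m * F n * Int_c (max (m : ℝ) n) u) volume 1 X :=
    fun m n => (Int_ii _ X hX).const_mul _
  have hi2 : ∀ m : ℕ, IntervalIntegrable (fun u => ∑ n ∈ D, F m * F n * Int_c (max (m : ℝ) n) u) volume 1 X := by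
    intro m
    have := IntervalIntegrable.sum (μ := volume) (a := 1) (b := X) D (f := fun n u => F m * F n * Int_c (max (m : ℝ) n) u)
      (fun n _ => hi m n)
    refine this.congr ?_
    intro u _
    simp
  constructor
  · rw [hfun]
    have := IntervalIntegrable.sum (μ := volume) (a := 1) (b := X) D
      (f := fun m u => ∑ n ∈ D, F m * F n * Int_c (max (m : ℝ) n) u) (fun m _ => hi2 m)
    refine this.congr ?_
    intro u _
    simp
  · rw [hfun, intervalIntegral.integral_finsetSum (fun m _ => hi2 m)]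
    have : (∑ n ∈ D, F n) ^ 2 / X = ∑ m ∈ D, ∑ n ∈ D, F m * F n / X := by
      rw [pow_two, Finset.sum_mul_sum, Finset.sum_div]
      exact Finset.sum_congr rfl fun m _ => Finset.sum_div _ _ _
    rw [this, ← Finset.sum_sub_distrib]
    refine Finset.sum_congr rfl fun m hm => ?_
    rw [intervalIntegral.integral_finsetSum (fun n _ => hi m n), ← Finset.sum_sub_distrib]
    refine Finset.sum_congr rfl fun n hn => ?_
    rw [intervalIntegral.integral_const_mul, Int_val]
    · ring
    · exact le_max_of_le_left (by exact_mod_cast (hD m hm).1)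
    · exact max_le (hD m hm).2 (hD n hn).2

theorem Int_Ms (F : ℕ → ℝ) (hF : ∀ n, ¬ Squarefree n → F n = 0) (y : ℕ) (u : ℝ) (hu : 1 ≤ u) (huy : u ≤ y) :
    Ms F u = Int_g F (primorial y).divisors u := by
  unfold Ms Int_g
  rw [← Finset.sum_filter]
  symm
  refine Finset.sum_subset ?_ ?_
  · intro n hn
    rw [Finset.mem_filter] at hn
    rw [Finset.mem_Icc]
    exact ⟨Nat.pos_of_mem_divisors hn.1, Nat.le_floor hn.2⟩
  · intro n hn hn2
    rw [Finset.mem_Icc] at hn
    refine hF n fun hsq => hn2 ?_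
    rw [Finset.mem_filter]
    have hnu : (n : ℝ) ≤ u := (Nat.le_floor_iff (by linarith)).1 hn.2
    refine ⟨?_, hnu⟩
    rw [Nat.mem_divisors]
    refine ⟨?_, primorial_ne_zero y⟩
    rw [← Nat.prod_primeFactors_of_squarefree hsq]
    unfold primorial
    refine Finset.prod_dvd_prod_of_subset _ _ _ ?_
    intro p hp
    rw [Finset.mem_filter, Finset.mem_range]
    refine ⟨?_, Nat.prime_of_mem_primeFactors hp⟩
    have h1 : p ≤ n := Nat.le_of_mem_primeFactors hp
    have h2 : n ≤ y := by exact_mod_cast hnu.trans huy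
    omega

theorem t_INT : S_INT := by
  intro F y hF
  set D := (primorial y).divisors with hD
  have hD1 : ∀ n ∈ D, 1 ≤ n ∧ (n : ℝ) ≤ primorial y := by
    intro n hn
    refine ⟨Nat.pos_of_mem_divisors hn, ?_⟩
    exact_mod_cast Nat.le_of_dvd (primorial_pos y) (Nat.dvd_of_mem_divisors hn)
  have hX1 : (1 : ℝ) ≤ primorial y := by exact_mod_cast primorial_pos y
  have key : ∀ X : ℝ, (primorial y : ℝ) ≤ X →
      0 ≤ ∫ u in (1 : ℝ)..X, (Int_g F D u / u) ^ 2 ∧ ∫ u in (1 : ℝ)..X, (Int_g F D u / u) ^ 2 ≤ AA F y := by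
    intro X hX
    have h := (Int_int F D X (hX1.trans hX) (fun n hn => ⟨(hD1 n hn).1, (hD1 n hn).2.trans hX⟩)).2
    refine ⟨intervalIntegral.integral_nonneg (hX1.trans hX) fun u _ => sq_nonneg _, ?_⟩
    rw [h]
    have h2 : 0 ≤ (∑ n ∈ D, F n) ^ 2 / X := by
      have : 0 < X := by linarith [hX1.trans hX]
      positivity
    have h3 : AA F y = ∑ m ∈ D, ∑ n ∈ D, F m * F n / max (m : ℝ) n := rfl
    linarith
  refine ⟨(key _ le_rfl).1.trans (key _ le_rfl).2, fun x hx hxy => ?_⟩
  have e1 : II F x = ∫ u in (1 : ℝ)..x, (Int_g F D u / u) ^ 2 := by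
    unfold II
    refine intervalIntegral.integral_congr fun u hu => ?_
    rw [Set.uIcc_of_le hx] at hu
    show (Ms F u / u) ^ 2 = _
    rw [Int_Ms F hF y u hu.1 (hu.2.trans hxy)]
  rw [e1]
  refine le_trans ?_ (key (max x (primorial y)) (le_max_right _ _)).2
  have hii := (Int_int F D (max x (primorial y)) (hx.trans (le_max_left _ _))
    (fun n hn => ⟨(hD1 n hn).1, (hD1 n hn).2.trans (le_max_right _ _)⟩)).1
  exact intervalIntegral.integral_mono_interval le_rfl hx (le_max_left _ _)
    (Eventually.of_forall fun u => sq_nonneg _) hii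

end Pool.Agent.N282.WM
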