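import Pool.Agent.N282.WM.Stm

/-!
# Project WM, part MAX: the maximal inequality (helper749)
-/

set_option autoImplicit false

open MeasureTheory Filter Topology Classical

namespace Pool.Agent.N282.WM

open Pool.Agent.N282.GC

theorem max_fs_one (s : ℕ → ℝ) : fs s 1 = 1 := by
  unfold fs
  simp

theorem max_fs_sq (s : ℕ → ℝ) (n : ℕ) (h : ¬ Squarefree n) : fs s n = 0 := by
  unfold fs
  rw [ArithmeticFunction.moebius_eq_zero_of_not_squarefree h]
  simp

theorem max_fs_le (s : ℕ → ℝ) (hs : ∀ p, s p = 1 ∨ s p = -1) (n : ℕ) : |fs s n| ≤ 1 := by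
  unfold fs
  rw [abs_mul, Finset.abs_prod]
  have h1 : ∀ p ∈ n.primeFactors, |s p| = 1 := by
    intro p _
    rcases hs p with h | h <;> rw [h] <;> simp
  rw [Finset.prod_congr rfl h1, Finset.prod_const_one, mul_one]
  have h2 := ArithmeticFunction.abs_moebius_le_one (n := n)
  exact_mod_cast h2

theorem max_PP_pos (y : ℕ) : 0 < PP y := by
  unfold PP
  refine Finset.prod_pos fun p _ => ?_
  positivity

theorem max_PP_succ (y : ℕ) : PP (y + 1) =
    if (y + 1).Prime then (1 + 1 / ((y + 1 : ℕ) : ℝ)) * PP y else PP y := by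
  unfold PP
  rw [Finset.range_add_one (n := y + 1), Finset.filter_insert]
  split_ifs with h
  · rw [Finset.prod_insert]
    intro h1
    rw [Finset.mem_filter, Finset.mem_range] at h1
    omega
  · rfl

theorem max_PP_zero : PP 0 = 1 := by
  unfold PP
  have h : (Finset.range (0 + 1)).filter Nat.Prime = ∅ := by
    rw [Finset.filter_eq_empty_iff]
    intro p hp
    rw [Finset.mem_range] at hp
    have : p = 0 := by omega
    rw [this]
    exact Nat.not_prime_zero
  rw [h, Finset.prod_empty]

theorem max_AA_zero (s : ℕ → ℝ) : AA (fs s) 0 = 1 := by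
  unfold AA
  have h : primorial 0 = 1 := rfl
  rw [h, Nat.divisors_one, Finset.sum_singleton, Finset.sum_singleton, max_fs_one]
  simp

/-- The prime factors of the divisors of `primorial y` are at most `y`. -/
theorem max_dvd {y m p : ℕ} (hm : m ∈ (primorial y).divisors) (hp : p ∈ m.primeFactors) :
    p ≤ y := by
  have h1 : p.Prime := Nat.prime_of_mem_primeFactors hp
  have h2 : p ∣ m := Nat.dvd_of_mem_primeFactors hp
  have h3 : p ∣ primorial y := h2.trans (Nat.dvd_of_mem_divisors hm)
  unfold primorial at h3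
  rw [Prime.dvd_finsetProd_iff h1.prime] at h3
  obtain ⟨q, hq, hpq⟩ := h3
  rw [Finset.mem_filter, Finset.mem_range] at hq
  have h4 : p = q := (Nat.prime_dvd_prime_iff_eq h1 hq.2).1 hpq
  omega

section

variable {Ω : Type} {m0 : MeasurableSpace Ω} {s : ℕ → Ω → ℝ}

/-- Measurability of the function with respect to a smaller field. -/
theorem max_fs_meas {m' : MeasurableSpace Ω} {y : ℕ} (h : ∀ p ≤ y, Measurable[m'] (s p)) (m : ℕ)
    (hm : m ∈ (primorial y).divisors) : Measurable[m'] fun ω => fs (fun p => s p ω) m := by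
  unfold fs
  refine Measurable.const_mul ?_ _
  exact Finset.measurable_prod _ fun p hp => h p (max_dvd hm hp)

theorem max_AA_meas {m' : MeasurableSpace Ω} {y : ℕ} (h : ∀ p ≤ y, Measurable[m'] (s p)) :
    Measurable[m'] fun ω => AA (fs fun p => s p ω) y := by
  unfold AA
  refine Finset.measurable_sum _ fun m hm => Finset.measurable_sum _ fun n hn => ?_
  exact ((max_fs_meas h m hm).mul (max_fs_meas h n hn)).div_const _

theorem max_BB_meas {m' : MeasurableSpace Ω} {y : ℕ} (h : ∀ p ≤ y, Measurable[m'] (s p)) (q : ℕ) :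
    Measurable[m'] fun ω => BB (fs fun p => s p ω) y q := by
  unfold BB
  refine Finset.measurable_sum _ fun m hm => Finset.measurable_sum _ fun n hn => ?_
  exact ((max_fs_meas h m hm).mul (max_fs_meas h n hn)).div_const _

theorem max_AA_le (t : ℕ → ℝ) (ht : ∀ p, t p = 1 ∨ t p = -1) (y : ℕ) : |AA (fs t) y| ≤
    ∑ m ∈ (primorial y).divisors, ∑ n ∈ (primorial y).divisors, |1 / max (m : ℝ) n| := by
  unfold AA
  refine (Finset.abs_sum_le_sum_abs _ _).trans (Finset.sum_le_sum fun m _ => ?_)
  refine (Finset.abs_sum_le_sum_abs _ _).trans (Finset.sum_le_sum fun n _ => ?_)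
  rw [abs_div, abs_div, abs_one, abs_mul]
  have h1 := max_fs_le t ht m
  have h2 := max_fs_le t ht n
  have h3 : |fs t m| * |fs t n| ≤ 1 := by
    calc |fs t m| * |fs t n| ≤ 1 * 1 := mul_le_mul h1 h2 (abs_nonneg _) (by norm_num)
      _ = 1 := one_mul 1
  exact div_le_div_of_nonneg_right h3 (abs_nonneg _)

end

open Finset in
/-- **Doob's maximal inequality** for the martingale `AA / PP`. -/
theorem t_MAX (h1 : S_ALG) (h2 : S_INT) : S_MAX := by
  intro Ω mΩ P hP s hmeas hs h0 hind l hl
  have hsm : ∀ p, StronglyMeasurable (s p) := fun p => (hmeas p).stronglyMeasurable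
  set 𝒢 := Filtration.natural s hsm with h𝒢
  obtain ⟨W, hW⟩ : ∃ W : ℕ → Ω → ℝ, W = fun y ω => AA (fs fun p => s p ω) y / PP y := ⟨_, rfl⟩
  have hWd : ∀ y ω, W y ω = AA (fs fun p => s p ω) y / PP y := fun y ω => by rw [hW]
  have had : ∀ y, ∀ p ≤ y, Measurable[𝒢 y] (s p) := by
    intro y p hp
    have h3 : StronglyMeasurable[𝒢 p] (s p) := Filtration.stronglyAdapted_natural hsm p
    exact (h3.mono (𝒢.mono hp)).measurable
  have hadp : StronglyAdapted 𝒢 W := by
    intro y
    rw [hW]
    exact ((max_AA_meas (had y)).div_const _).stronglyMeasurable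
  have hWm : ∀ y, Measurable (W y) := fun y => ((hadp y).mono (𝒢.le y)).measurable
  have hint : ∀ y, Integrable (W y) P := by
    intro y
    refine Integrable.of_bound (hWm y).aestronglyMeasurable
      ((∑ m ∈ (primorial y).divisors, ∑ n ∈ (primorial y).divisors, |1 / max (m : ℝ) n|) / PP y)
      (ae_of_all _ fun ω => ?_)
    rw [hWd, Real.norm_eq_abs, abs_div, abs_of_pos (max_PP_pos y)]
    exact div_le_div_of_nonneg_right (max_AA_le _ (fun p => hs p ω) y) (max_PP_pos y).le
  have hnn : 0 ≤ W := by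
    intro y ω
    rw [hWd]
    exact div_nonneg (h2 _ y fun n hn => max_fs_sq _ n hn).1 (max_PP_pos y).le
  have hdiff : ∀ y, ∃ g : Ω → ℝ, StronglyMeasurable[𝒢 y] g ∧ W (y + 1) - W y = g * s (y + 1) := by
    intro y
    by_cases hp : (y + 1).Prime
    · refine ⟨fun ω => -2 * BB (fs fun p => s p ω) y (y + 1) / PP (y + 1), ?_, ?_⟩
      · exact (((max_BB_meas (had y) _).const_mul _).div_const _).stronglyMeasurable
      · funext ω
        show W (y + 1) ω - W y ω = -2 * BB (fs fun p => s p ω) y (y + 1) / PP (y + 1) * s (y + 1) ω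
        have h3 := h1 (fun p => s p ω) y (fun p => by
          rcases hs p ω with h | h <;> simp only [h] <;> norm_num)
        rw [if_pos hp] at h3
        have h4 := max_PP_succ y
        rw [if_pos hp] at h4
        rw [hWd, hWd, h3, h4]
        have h5 := (max_PP_pos y).ne'
        have h6 : (1 + 1 / ((y + 1 : ℕ) : ℝ)) ≠ 0 := by positivity
        field_simp
        ring
    · refine ⟨0, stronglyMeasurable_zero, ?_⟩
      funext ω
      show W (y + 1) ω - W y ω = 0 * s (y + 1) ω
      have h3 := h1 (fun p => s p ω) y (fun p => by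
        rcases hs p ω with h | h <;> simp only [h] <;> norm_num)
      rw [if_neg hp] at h3
      have h4 := max_PP_succ y
      rw [if_neg hp] at h4
      rw [hWd, hWd, h3, h4]
      ring
  have hsint : ∀ p, Integrable (s p) P := by
    intro p
    refine Integrable.of_bound (hmeas p).aestronglyMeasurable 1 (ae_of_all _ fun ω => ?_)
    rcases hs p ω with h | h <;> rw [h] <;> simp
  have hmart : Martingale W 𝒢 P := by
    refine martingale_of_condExp_sub_eq_zero_nat hadp hint fun y => ?_
    obtain ⟨g, hg, hgd⟩ := hdiff y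
    rw [hgd]
    have h3 : Integrable (g * s (y + 1)) P := by
      rw [← hgd]
      exact (hint _).sub (hint _)
    have h4 := condExp_mul_of_stronglyMeasurable_left hg h3 (hsint (y + 1))
    have h5 : P[s (y + 1) | 𝒢 y] =ᵐ[P] fun _ => ∫ ω, s (y + 1) ω ∂P :=
      ProbabilityTheory.iIndepFun.condExp_natural_ae_eq_of_lt hsm hind (Nat.lt_succ_self y)
    refine h4.trans ?_
    filter_upwards [h5] with ω hω
    show g ω * (P[s (y + 1) | 𝒢 y]) ω = 0
    rw [hω, h0, mul_zero]
  -- the expectation
  have hE : ∀ n, ∫ ω, W n ω ∂P = 1 := by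
    intro n
    have h3 := hmart.setIntegral_eq (Nat.zero_le n) (MeasurableSet.univ)
    rw [setIntegral_univ, setIntegral_univ] at h3
    rw [← h3]
    have h4 : ∀ ω, W 0 ω = 1 := by
      intro ω
      rw [hWd, max_AA_zero, max_PP_zero, div_one]
    simp [h4]
  -- the maximal inequality
  have hS : ∀ n : ℕ, P {ω | ∃ y ≤ n, l * PP y < AA (fs fun p => s p ω) y} ≤
      ENNReal.ofReal (1 / l) := by
    intro n
    obtain ⟨ε, hε⟩ : ∃ ε : NNReal, (ε : ℝ) = l := ⟨⟨l, hl.le⟩, rfl⟩
    have h3 := maximal_ineq hmart.submartingale hnn (ε := ε) n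
    have h4 : ENNReal.ofReal (∫ ω in {ω | (ε : ℝ) ≤
        (range (n + 1)).sup' nonempty_range_add_one fun k => W k ω}, W n ω ∂P) ≤ 1 := by
      rw [← ENNReal.ofReal_one]
      refine ENNReal.ofReal_le_ofReal ?_
      rw [← hE n]
      exact setIntegral_le_integral (hint n) (ae_of_all _ fun ω => hnn n ω)
    have h5 : {ω | ∃ y ≤ n, l * PP y < AA (fs fun p => s p ω) y} ⊆
        {ω | (ε : ℝ) ≤
          (range (n + 1)).sup' nonempty_range_add_one fun k => W k ω} := by
      rintro ω ⟨y, hy, hlt⟩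
      show (ε : ℝ) ≤ (range (n + 1)).sup' nonempty_range_add_one fun k => W k ω
      rw [hε]
      have h6 : l ≤ W y ω := by
        rw [hWd, le_div_iff₀ (max_PP_pos y)]
        exact hlt.le
      exact h6.trans (Finset.le_sup' (fun k => W k ω) (Finset.mem_range.2 (by omega)))
    have h7 : (ε : ENNReal) * P {ω | ∃ y ≤ n, l * PP y < AA (fs fun p => s p ω) y} ≤ 1 := by
      refine le_trans ?_ (h3.trans h4)
      gcongr
    have h8 : (ε : ENNReal) = ENNReal.ofReal l := by
      rw [← hε, ENNReal.ofReal_coe_nnreal]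
    rw [h8] at h7
    have h9 : ENNReal.ofReal l ≠ 0 := by
      rw [Ne, ENNReal.ofReal_eq_zero, not_le]
      exact hl
    rw [one_div, ENNReal.ofReal_inv_of_pos hl]
    rw [mul_comm] at h7
    rw [← one_div, ENNReal.le_div_iff_mul_le (Or.inl h9) (Or.inl ENNReal.ofReal_ne_top)]
    exact h7
  have hun : {ω | ∃ y : ℕ, l * PP y < AA (fs fun p => s p ω) y} =
      ⋃ n : ℕ, {ω | ∃ y ≤ n, l * PP y < AA (fs fun p => s p ω) y} := by
    ext ω
    rw [Set.mem_iUnion]
    constructor
    · rintro ⟨y, hy⟩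
      exact ⟨y, y, le_rfl, hy⟩
    · rintro ⟨n, y, -, hy⟩
      exact ⟨y, hy⟩
  have hmono : Monotone fun n : ℕ => {ω | ∃ y ≤ n, l * PP y < AA (fs fun p => s p ω) y} := by
    intro n n' hnn' ω
    rintro ⟨y, hy, h⟩
    exact ⟨y, hy.trans hnn', h⟩
  have hfinal : P {ω | ∃ y : ℕ, l * PP y < AA (fs fun p => s p ω) y} ≤ ENNReal.ofReal (1 / l) := by
    rw [hun, hmono.measure_iUnion]
    exact iSup_le hS
  exact ENNReal.toReal_le_of_le_ofReal (by positivity) hfinal

end Pool.Agent.N282.WM
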