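import Pool.Agent.N282.WM.Stm
import Pool.Agent.Erdos456.Mertens

/-!
# Project WM: the product over the primes (helper282)
-/

set_option autoImplicit false

open MeasureTheory Filter Topology Classical

namespace Pool.Agent.N282.WM

open Pool.Agent.N282.GC

theorem Mer_mono (y : ℕ) : PP y ≤ PP (y + 1) := by
  unfold PP
  rw [Finset.range_add_one (n := y + 1), Finset.filter_insert]
  split_ifs with h
  · rw [Finset.prod_insert]
    · have h1 : 0 ≤ ∏ p ∈ (Finset.range (y + 1)).filter Nat.Prime, (1 + 1 / (p : ℝ)) :=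
        Finset.prod_nonneg fun p _ => by positivity
      have h2 : (0 : ℝ) ≤ 1 / ((y + 1 : ℕ) : ℝ) := by positivity
      nlinarith
    · intro h1
      rw [Finset.mem_filter, Finset.mem_range] at h1
      omega
  · exact le_rfl

theorem Mer_exp (y : ℕ) : PP y ≤ Real.exp (∑ p ∈ (Finset.Icc 1 y).filter Nat.Prime, (1 : ℝ) / p) := by
  have h1 : (Finset.Icc 1 y).filter Nat.Prime = (Finset.range (y + 1)).filter Nat.Prime := by
    ext p
    simp only [Finset.mem_filter, Finset.mem_Icc, Finset.mem_range]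
    constructor
    · rintro ⟨⟨h1, h2⟩, h3⟩
      exact ⟨by omega, h3⟩
    · rintro ⟨h1, h3⟩
      exact ⟨⟨h3.one_lt.le, by omega⟩, h3⟩
  rw [h1, Real.exp_sum]
  unfold PP
  refine Finset.prod_le_prod (fun p _ => by positivity) fun p _ => ?_
  rw [add_comm]
  exact Real.add_one_le_exp _

theorem t_MER : S_MER := by
  obtain ⟨C, hC⟩ := Pool.Agent.Erdos456.Mert.mertens_inv
  refine ⟨2 * Real.exp C, by positivity, fun x hx => ?_⟩
  set y := ⌈x⌉₊ with hy
  have hy2 : 2 ≤ y := by
    have : (2 : ℝ) ≤ (y : ℝ) := hx.trans (Nat.le_ceil x)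
    exact_mod_cast this
  have hyx : (y : ℝ) ≤ x + 1 := (Nat.ceil_lt_add_one (by linarith)).le
  have h1 := hC (y + 1) (by omega)
  have h2 := (abs_le.1 h1).2
  have h3 : (2 : ℝ) < ((y + 1 : ℕ) : ℝ) := by push_cast; have : (2 : ℝ) ≤ y := by exact_mod_cast hy2
                                              linarith
  have hlog : 0 < Real.log ((y + 1 : ℕ) : ℝ) := Real.log_pos (by linarith)
  have h4 : Real.log ((y + 1 : ℕ) : ℝ) ≤ 2 * Real.log x := by
    have e : 2 * Real.log x = Real.log (x ^ 2) := by rw [Real.log_pow]; push_cast; ring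
    rw [e]
    refine Real.log_le_log (by linarith) ?_
    push_cast
    nlinarith
  calc PP y ≤ PP (y + 1) := Mer_mono y
    _ ≤ Real.exp (∑ p ∈ (Finset.Icc 1 (y + 1)).filter Nat.Prime, (1 : ℝ) / p) := Mer_exp _
    _ ≤ Real.exp (C + Real.log (Real.log ((y + 1 : ℕ) : ℝ))) := by
        refine Real.exp_le_exp.2 ?_
        linarith
    _ = Real.exp C * Real.log ((y + 1 : ℕ) : ℝ) := by rw [Real.exp_add, Real.exp_log hlog]
    _ ≤ Real.exp C * (2 * Real.log x) := mul_le_mul_of_nonneg_left h4 (Real.exp_pos _).le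
    _ = 2 * Real.exp C * Real.log x := by ring

end Pool.Agent.N282.WM
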