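import Pool.Agent.N282.WM.Alg
import Pool.Agent.N282.WM.Int
import Pool.Agent.N282.WM.Mer
import Pool.Agent.N282.WM.Max

/-!
# Project WM: assembly (helper282)
-/

set_option autoImplicit false

open MeasureTheory Filter Topology Classical

namespace Pool.Agent.N282.WM

open Pool.Agent.N282.GC

theorem All_det (C : ℝ) (hC : ∀ x : ℝ, 2 ≤ x → PP ⌈x⌉₊ ≤ C * Real.log x) (s : ℕ → ℝ) (x : ℝ) (hx : 2 ≤ x)
    (l : ℝ) (hl : 0 < l) (h : l * (C * Real.log x) < II (fs s) x) :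
    ∃ y : ℕ, l * PP y < AA (fs s) y := by
  refine ⟨⌈x⌉₊, ?_⟩
  have h1 := (t_INT (fs s) ⌈x⌉₊ (fun n hn => max_fs_sq s n hn)).2 x (by linarith) (Nat.le_ceil x)
  calc l * PP ⌈x⌉₊ ≤ l * (C * Real.log x) := mul_le_mul_of_nonneg_left (hC x hx) hl.le
    _ < II (fs s) x := h
    _ ≤ AA (fs s) ⌈x⌉₊ := h1

theorem a_WM : ∃ C : ℝ, 0 < C ∧ ∀ (Ω : Type) (_ : MeasurableSpace Ω) (P : Measure Ω) (_ : IsProbabilityMeasure P)
    (s : ℕ → Ω → ℝ), (∀ p, Measurable (s p)) → (∀ p ω, s p ω = 1 ∨ s p ω = -1) → (∀ p, ∫ ω, s p ω ∂P = 0) →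
    ProbabilityTheory.iIndepFun s P →
      (∀ l : ℝ, 0 < l →
        (P {ω | ∃ x : ℝ, 2 ≤ x ∧ l * Real.log x < II (fs fun p => s p ω) x}).toReal ≤ C / l) ∧
      ∀ᵐ ω ∂P, ∃ K : ℝ, ∀ x : ℝ, 2 ≤ x → II (fs fun p => s p ω) x ≤ K * Real.log x := by
  obtain ⟨C, hC0, hC⟩ := t_MER
  refine ⟨C, hC0, fun Ω _ P _ s hm hs h0 hi => ?_⟩
  have key : ∀ l : ℝ, 0 < l →
      (P {ω | ∃ x : ℝ, 2 ≤ x ∧ l * Real.log x < II (fs fun p => s p ω) x}).toReal ≤ C / l := by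
    intro l hl
    have hlC : 0 < l / C := by positivity
    have h1 := t_MAX t_ALG t_INT Ω _ P inferInstance s hm hs h0 hi (l / C) hlC
    have h2 : {ω | ∃ x : ℝ, 2 ≤ x ∧ l * Real.log x < II (fs fun p => s p ω) x} ⊆
        {ω | ∃ y : ℕ, l / C * PP y < AA (fs fun p => s p ω) y} := by
      intro ω hω
      obtain ⟨x, hx, hlx⟩ := hω
      refine All_det C hC _ x hx _ hlC ?_
      have e : l / C * (C * Real.log x) = l * Real.log x := by field_simp
      rwa [e]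
    have h3 : (P {ω | ∃ x : ℝ, 2 ≤ x ∧ l * Real.log x < II (fs fun p => s p ω) x}).toReal ≤
        (P {ω | ∃ y : ℕ, l / C * PP y < AA (fs fun p => s p ω) y}).toReal :=
      ENNReal.toReal_mono (measure_ne_top _ _) (measure_mono h2)
    refine h3.trans (h1.trans ?_)
    rw [one_div_div]
  refine ⟨key, ?_⟩
  rw [ae_iff]
  set B : Set Ω := {ω | ¬ ∃ K : ℝ, ∀ x : ℝ, 2 ≤ x → II (fs fun p => s p ω) x ≤ K * Real.log x} with hB
  have hsub : ∀ l : ℝ, B ⊆ {ω | ∃ x : ℝ, 2 ≤ x ∧ l * Real.log x < II (fs fun p => s p ω) x} := by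
    intro l ω hω
    rw [hB] at hω
    by_contra hcon
    refine hω ⟨l, fun x hx => ?_⟩
    by_contra h
    exact hcon ⟨x, hx, lt_of_not_ge h⟩
  have hle : ∀ l : ℝ, 0 < l → (P B).toReal ≤ C / l := fun l hl =>
    (ENNReal.toReal_mono (measure_ne_top _ _) (measure_mono (hsub l))).trans (key l hl)
  have h0 : (P B).toReal ≤ 0 := by
    by_contra hcon
    push Not at hcon
    have h1 := hle (2 * C / (P B).toReal) (by positivity)
    have e : C / (2 * C / (P B).toReal) = (P B).toReal / 2 := by field_simp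
    rw [e] at h1
    linarith
  have h1 : (P B).toReal = 0 := le_antisymm h0 ENNReal.toReal_nonneg
  rcases (ENNReal.toReal_eq_zero_iff _).1 h1 with h | h
  · exact h
  · exact absurd h (measure_ne_top _ _)

end Pool.Agent.N282.WM
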