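import Pool.Agent.N282.GC.Defs

/-!
# Project WM: the weak Mertens hypothesis for random multiplicative functions, statements (helper282)
-/

set_option autoImplicit false

open MeasureTheory Filter Topology Classical

namespace Pool.Agent.N282.WM

open Pool.Agent.N282.GC

/-- the sum of `F n` over `1 ≤ n ≤ u` -/
noncomputable def Ms (F : ℕ → ℝ) (u : ℝ) : ℝ := ∑ n ∈ Finset.Icc 1 ⌊u⌋₊, F n

/-- the integral of the problem -/
noncomputable def II (F : ℕ → ℝ) (x : ℝ) : ℝ := ∫ u in (1 : ℝ)..x, (Ms F u / u) ^ 2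

/-- the integral from `1` to `∞` of the square of the sum over the divisors of the product of the primes `≤ y` -/
noncomputable def AA (F : ℕ → ℝ) (y : ℕ) : ℝ :=
  ∑ m ∈ (primorial y).divisors, ∑ n ∈ (primorial y).divisors, F m * F n / max (m : ℝ) n

/-- the mixed term -/
noncomputable def BB (F : ℕ → ℝ) (y p : ℕ) : ℝ :=
  ∑ m ∈ (primorial y).divisors, ∑ n ∈ (primorial y).divisors, F m * F n / max (m : ℝ) (p * n)

/-- the product of `1 + 1/p` over the primes `p ≤ y` -/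
noncomputable def PP (y : ℕ) : ℝ := ∏ p ∈ (Finset.range (y + 1)).filter Nat.Prime, (1 + 1 / (p : ℝ))

/-- one more prime -/
def S_ALG : Prop := ∀ (s : ℕ → ℝ) (y : ℕ), (∀ p, s p ^ 2 = 1) →
  AA (fs s) (y + 1) = if (y + 1).Prime then
    (1 + 1 / ((y + 1 : ℕ) : ℝ)) * AA (fs s) y - 2 * s (y + 1) * BB (fs s) y (y + 1) else AA (fs s) y

/-- the integral up to `x ≤ y` -/
def S_INT : Prop := ∀ (F : ℕ → ℝ) (y : ℕ), (∀ n, ¬ Squarefree n → F n = 0) →
  0 ≤ AA F y ∧ ∀ x : ℝ, 1 ≤ x → x ≤ y → II F x ≤ AA F y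

/-- Doob's maximal inequality -/
def S_MAX : Prop := ∀ (Ω : Type) (_ : MeasurableSpace Ω) (P : Measure Ω) (_ : IsProbabilityMeasure P)
  (s : ℕ → Ω → ℝ), (∀ p, Measurable (s p)) → (∀ p ω, s p ω = 1 ∨ s p ω = -1) → (∀ p, ∫ ω, s p ω ∂P = 0) →
  ProbabilityTheory.iIndepFun s P → ∀ l : ℝ, 0 < l →
    (P {ω | ∃ y : ℕ, l * PP y < AA (fs fun p => s p ω) y}).toReal ≤ 1 / l

/-- Mertens -/
def S_MER : Prop := ∃ C : ℝ, 0 < C ∧ ∀ x : ℝ, 2 ≤ x → PP ⌈x⌉₊ ≤ C * Real.log x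

end Pool.Agent.N282.WM
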